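import Pool.Agent.Helper39.DL.Goals

/-! The span of commuting linear isometries has dimension at most the dimension of the space. -/

namespace Pool.Agent.Helper86.DL

open Module
open scoped RealInnerProductSpace

section

variable {E : Type} [NormedAddCommGroup E] [InnerProductSpace ℝ E]

/-- The operator of an isometry. -/
def op (A : E ≃ₗᵢ[ℝ] E) : E →L[ℝ] E := (A.toContinuousLinearEquiv : E →L[ℝ] E)

theorem op_apply (A : E ≃ₗᵢ[ℝ] E) (v : E) : op A v = A v := rfl

/-- The annihilator of a vector in a space of operators. -/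
def Ann (𝔸 : Submodule ℝ (E →L[ℝ] E)) (v : E) : Submodule ℝ (E →L[ℝ] E) where
  carrier := {T | T ∈ 𝔸 ∧ T v = 0}
  add_mem' := by
    rintro a b ⟨ha, ha'⟩ ⟨hb, hb'⟩
    refine ⟨𝔸.add_mem ha hb, ?_⟩
    simp [ha', hb']
  zero_mem' := ⟨𝔸.zero_mem, by simp⟩
  smul_mem' := by
    rintro c a ⟨ha, ha'⟩
    refine ⟨𝔸.smul_mem c ha, ?_⟩
    simp [ha']

theorem mem_Ann {𝔸 : Submodule ℝ (E →L[ℝ] E)} {v : E} {T : E →L[ℝ] E} :
    T ∈ Ann 𝔸 v ↔ T ∈ 𝔸 ∧ T v = 0 := Iff.rfl

theorem main [FiniteDimensional ℝ E] (M : Subgroup (E ≃ₗᵢ[ℝ] E))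
    (hM : ∀ A ∈ M, ∀ B ∈ M, A * B = B * A) :
    finrank ℝ (Submodule.span ℝ (op '' (M : Set (E ≃ₗᵢ[ℝ] E)))) ≤ finrank ℝ E := by
  classical
  set 𝔸 := Submodule.span ℝ (op '' (M : Set (E ≃ₗᵢ[ℝ] E))) with h𝔸
  have hcomm1 : ∀ A ∈ M, ∀ T ∈ 𝔸, ∀ v, (op A) (T v) = T (op A v) := by
    intro A hA T hT
    induction hT using Submodule.span_induction with
    | mem x hx =>
      obtain ⟨B, hB, rfl⟩ := hx
      intro v
      have := hM A hA B hB
      have h2 := congrArg (fun C : E ≃ₗᵢ[ℝ] E => C v) this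
      exact h2
    | zero => intro v; simp
    | add x y _ _ hx hy =>
      intro v
      simp only [ContinuousLinearMap.add_apply, map_add, hx, hy]
    | smul a x _ hx =>
      intro v
      simp only [ContinuousLinearMap.smul_apply, map_smul, hx]
  have hcomm : ∀ S ∈ 𝔸, ∀ T ∈ 𝔸, ∀ v, S (T v) = T (S v) := by
    intro S hS T hT
    induction hS using Submodule.span_induction with
    | mem x hx =>
      obtain ⟨B, hB, rfl⟩ := hx
      exact hcomm1 B hB T hT
    | zero => intro v; simp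
    | add x y _ _ hx hy =>
      intro v
      simp only [ContinuousLinearMap.add_apply, map_add, hx, hy]
    | smul a x _ hx =>
      intro v
      simp only [ContinuousLinearMap.smul_apply, map_smul, hx]
  obtain ⟨v, hv⟩ : ∃ v : E, ∀ w : E, finrank ℝ (Ann 𝔸 v) ≤ finrank ℝ (Ann 𝔸 w) :=
    ⟨Function.argmin (fun v : E => finrank ℝ (Ann 𝔸 v)),
      fun w => Function.argmin_le (fun v : E => finrank ℝ (Ann 𝔸 v)) w⟩
  have hzero : ∀ T ∈ 𝔸, T v = 0 → T = 0 := by
    intro T hT hTv
    by_contra hne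
    set K : Submodule ℝ E := LinearMap.ker (T : E →ₗ[ℝ] E) with hK
    have hmemK : ∀ x, x ∈ K ↔ T x = 0 := fun x => by
      rw [hK, LinearMap.mem_ker]; rfl
    have hKinv : ∀ S ∈ 𝔸, ∀ x ∈ K, S x ∈ K := by
      intro S hS x hx
      rw [hmemK] at hx ⊢
      rw [hcomm T hT S hS, hx, map_zero]
    have hKo1 : ∀ A ∈ M, ∀ x ∈ Kᗮ, op A x ∈ Kᗮ := by
      intro A hA x hx
      rw [Submodule.mem_orthogonal]
      intro k hk
      have h1 : op A⁻¹ k ∈ K :=
        hKinv _ (Submodule.subset_span ⟨A⁻¹, M.inv_mem hA, rfl⟩) k hk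
      have h2 := (Submodule.mem_orthogonal K x).1 hx _ h1
      have h3 : ⟪A (A⁻¹ k), A x⟫ = ⟪A⁻¹ k, x⟫ := A.inner_map_map _ _
      have h4 : A (A⁻¹ k) = k := by
        have : (A * A⁻¹) k = k := by rw [mul_inv_cancel]; rfl
        exact this
      rw [h4] at h3
      exact h3.trans h2
    have hKo : ∀ S ∈ 𝔸, ∀ x ∈ Kᗮ, S x ∈ Kᗮ := by
      intro S hS
      induction hS using Submodule.span_induction with
      | mem x hx =>
        obtain ⟨B, hB, rfl⟩ := hx
        exact hKo1 B hB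
      | zero => intro x _; simp
      | add x y _ _ hx hy =>
        intro z hz
        exact Kᗮ.add_mem (hx z hz) (hy z hz)
      | smul a x _ hx =>
        intro z hz
        exact Kᗮ.smul_mem a (hx z hz)
    have hKtop : K ≠ ⊤ := by
      intro h
      apply hne
      ext x
      have : x ∈ K := by rw [h]; trivial
      exact (hmemK x).1 this
    have hKbot : Kᗮ ≠ ⊥ := by
      intro h
      exact hKtop ((Submodule.orthogonal_eq_bot_iff).1 h)
    obtain ⟨w, hw, hw0⟩ := Submodule.exists_mem_ne_zero_of_ne_bot hKbot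
    have hvK : v ∈ K := (hmemK v).2 hTv
    have hinter : ∀ x, x ∈ K → x ∈ Kᗮ → x = 0 := by
      intro x hx hx'
      have := (Submodule.mem_orthogonal K x).1 hx' x hx
      exact inner_self_eq_zero.1 this
    have hle : Ann 𝔸 (v + w) ≤ Ann 𝔸 v := by
      rintro S ⟨hS, hS0⟩
      refine ⟨hS, ?_⟩
      rw [map_add] at hS0
      apply hinter _ (hKinv S hS v hvK)
      have : S v = -(S w) := eq_neg_of_add_eq_zero_left hS0
      rw [this]
      exact Kᗮ.neg_mem (hKo S hS w hw)
    have hlt : Ann 𝔸 (v + w) < Ann 𝔸 v := by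
      refine lt_of_le_of_ne hle ?_
      intro h
      have h1 : T ∈ Ann 𝔸 v := ⟨hT, hTv⟩
      rw [← h] at h1
      have h2 := h1.2
      rw [map_add, hTv, zero_add] at h2
      exact hw0 (hinter w ((hmemK w).2 h2) hw)
    have h5 := Submodule.finrank_lt_finrank_of_lt hlt
    exact absurd (hv (v + w)) (not_le.2 h5)
  let f : 𝔸 →ₗ[ℝ] E :=
    { toFun := fun T => (T : E →L[ℝ] E) v
      map_add' := fun _ _ => rfl
      map_smul' := fun _ _ => rfl }
  have hf : Function.Injective f := by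
    rw [← LinearMap.ker_eq_bot, LinearMap.ker_eq_bot']
    intro T hT
    exact Subtype.ext (hzero T.1 T.2 hT)
  exact LinearMap.finrank_le_finrank_of_injective hf

end

/-- **DL-CD**: the span of commuting linear isometries has dimension at most `dim E`. -/
theorem commDim (E : Type) [NormedAddCommGroup E] [InnerProductSpace ℝ E]
    [FiniteDimensional ℝ E] : Pool.Agent.Helper39.DL.CommDim E := by
  intro 𝒜 h𝒜
  set M := Subgroup.closure 𝒜 with hMdef
  have hM : ∀ A ∈ M, ∀ B ∈ M, A * B = B * A := by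
    have hc : IsMulCommutative (Subgroup.closure 𝒜) := Subgroup.isMulCommutative_closure h𝒜
    intro A hA B hB
    have := hc.is_comm.comm (⟨A, hA⟩ : Subgroup.closure 𝒜) ⟨B, hB⟩
    exact congrArg Subtype.val this
  refine le_trans (Submodule.finrank_mono ?_) (main M hM)
  apply Submodule.span_mono
  apply Set.image_mono
  exact Subgroup.subset_closure

end Pool.Agent.Helper86.DL
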